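import Mathlib

/-!
PROJECT LT (MP_274814_nt), definitions. Blueprint: notes 2171, team-store LT_blueprint.md.
-/

namespace Pool.Agent.Helper34.LT

open Finset

noncomputable section

/-- `exp (2 pi i / q)` -/
def zt (q : ℕ) : ℂ := Complex.exp (2 * Real.pi * Complex.I / q)

/-- the CM type of `y^q = x^a (1-x)^b`: exactly one of `u`, `q - u` is in it -/
def Phi (q a b : ℕ) : Finset ℕ :=
  (Icc 1 (q - 1)).filter fun u => q < (u * a) % q + (u * b) % q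

/-- fractional part of `u a / q` -/
def al (q a u : ℕ) : ℝ := ((u * a) % q : ℕ) / (q : ℝ)

/-- the scale of coordinate `u`: algebraic over the field of the Gamma values -/
def rho (q a b u : ℕ) : ℂ :=
  2 * Real.pi * Complex.I * Complex.exp (-(Complex.I * Real.pi * ((al q b u : ℂ) - 1))) /
    (Complex.betaIntegral (al q a u) (al q b u) * ((al q a u : ℂ) + (al q b u : ℂ) - 1))

/-- `(P(zeta^u))_u` -/
def pt (q : ℕ) (s : Finset ℕ) (P : Polynomial ℤ) : s → ℂ :=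
  fun u => Polynomial.aeval (zt q ^ (u : ℕ)) P

/-- lattice points of `C^Phi` -/
def lam (q a b : ℕ) (P : Polynomial ℤ) : Phi q a b → ℂ :=
  fun u => rho q a b u * pt q _ P u

/-- `f = ∑ A_m z^m / (m! D^(|m|+k))` with integers `A_m`, everywhere convergent -/
def RT {ι : Type} [Fintype ι] (D k : ℕ) (f : (ι → ℂ) → ℂ) : Prop :=
  ∃ A : (ι → ℕ) → ℤ, ∀ z : ι → ℂ,
    HasSum (fun m : ι → ℕ =>
      (A m : ℂ) / ((D : ℂ) ^ (∑ u, m u + k) * ∏ u, ((m u).factorial : ℂ)) * ∏ u, z u ^ m u) (f z)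

/-- result of block F -/
structure IsTau (q a b : ℕ) (τ : (Phi q a b → ℂ) → ℂ) : Prop where
  diff : Differentiable ℂ τ
  zero : τ 0 = 0
  ne : ∃ z, τ z ≠ 0
  rt : ∃ D : ℕ, 1 ≤ D ∧ RT D 1 τ
  sym : ∃ w : ℕ, ∀ z : Phi q a b → ℂ,
    τ (fun u => zt q ^ ((u : ℕ) * (a + b)) * z u) = zt q ^ w * τ z
  per : ∀ P : Polynomial ℤ, ∃ (l : (Phi q a b → ℂ) →ₗ[ℂ] ℂ) (c : ℂ), ∀ z,
    τ (z + lam q a b P) = Complex.exp (l z + c) * τ z

/-- quasi-periodicity with the normalised multipliers -/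
def QP (q a b : ℕ) (κ : Phi q a b → ℂ) (c : Polynomial ℤ → ℂ) (F : (Phi q a b → ℂ) → ℂ) : Prop :=
  ∀ (P : Polynomial ℤ) (z : Phi q a b → ℂ),
    F (z + lam q a b P) =
      Complex.exp (∑ u, κ u * (starRingEnd ℂ) (pt q _ P u) * z u + c P) * F z

/-- monomial of total degree `g L` in `f0, f_1, .., f_g` -/
def mon {ι : Type} (g L : ℕ) (f0 : (ι → ℂ) → ℂ) (f : Fin g → (ι → ℂ) → ℂ)
    (e : Fin g → Fin (L + 1)) (z : ι → ℂ) : ℂ :=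
  f0 z ^ (g * L - ∑ i, (e i : ℕ)) * ∏ i, f i z ^ (e i : ℕ)

/-- result of block G -/
structure IsSys (q a b : ℕ) (κ : Phi q a b → ℂ) (c : Polynomial ℤ → ℂ)
    (f0 : (Phi q a b → ℂ) → ℂ) (f : Fin ((q - 1) / 2) → (Phi q a b → ℂ) → ℂ) : Prop where
  kap : ∀ u, κ u ≠ 0
  diff0 : Differentiable ℂ f0
  diff : ∀ i, Differentiable ℂ (f i)
  qp0 : QP q a b κ c f0
  qp : ∀ i, QP q a b κ c (f i)
  rt : ∃ D : ℕ, 1 ≤ D ∧ RT D 1 f0 ∧ ∀ i, RT D 1 (f i)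
  growth : ∃ C : ℝ, ∀ z, ‖f0 z‖ ≤ Real.exp (C * (1 + ‖z‖ ^ 2)) ∧
    ∀ i, ‖f i z‖ ≤ Real.exp (C * (1 + ‖z‖ ^ 2))
  bpf : ∀ p, ∃ F : (Phi q a b → ℂ) → ℂ, Differentiable ℂ F ∧ QP q a b κ c F ∧ F p ≠ 0
  indep : ∀ L : ℕ, LinearIndependent ℂ
    (fun e : Fin ((q - 1) / 2) → Fin (L + 1) => mon ((q - 1) / 2) L f0 f e)

/-- functions with multiplier `exp (k (l_a z + c_a))` -/
def Theta {ι A : Type} [Fintype ι] [AddCommGroup A] (γ : A →+ (ι → ℂ))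
    (l : A →+ ((ι → ℂ) →ₗ[ℂ] ℂ)) (c : A → ℂ) (k : ℕ) (F : (ι → ℂ) → ℂ) : Prop :=
  Differentiable ℂ F ∧ ∀ a z, F (z + γ a) = Complex.exp (k * (l a z + c a)) * F z

/-- `V = C^Psi` -/
def Psi (q : ℕ) : Finset ℕ := Phi q 1 1 ∪ Phi q 1 3

/-- the map of slope `X` from `C^s` to `C^Phi` -/
def emb {s t : Finset ℕ} (h : t ⊆ s) (X : t → ℂ) (z : s → ℂ) : t → ℂ :=
  fun u => X u * z ⟨u, h u.2⟩

end

end Pool.Agent.Helper34.LT
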