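import Pool.Agent.Helper34.LT.Df

/-! PROJECT LT: two definitions of the assembly part (import this) -/

namespace Pool.Agent.Helper34.LT

open Finset


noncomputable section

/-- exponents -/
abbrev Ex (q L : ℕ) := Fin ((q - 1) / 2) → Fin (L + 1)

/-- the function on `C^Psi` with slopes `X`, `Y` -/
def FF (q L : ℕ) (f0 : (Phi q 1 1 → ℂ) → ℂ) (f : Fin ((q - 1) / 2) → (Phi q 1 1 → ℂ) → ℂ)
    (g0 : (Phi q 1 3 → ℂ) → ℂ) (g : Fin ((q - 1) / 2) → (Phi q 1 3 → ℂ) → ℂ)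
    (c : Ex q L × Ex q L → ℂ) (X : Phi q 1 1 → ℂ) (Y : Phi q 1 3 → ℂ) (z : Psi q → ℂ) : ℂ :=
  ∑ e, c e * mon ((q - 1) / 2) L f0 f e.1 (emb (subset_union_left (s₂ := Phi q 1 3)) X z) *
    mon ((q - 1) / 2) L g0 g e.2 (emb (subset_union_right (s₁ := Phi q 1 1)) Y z)

end


end Pool.Agent.Helper34.LT
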