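import Pool.Agent.Helper34.LT.Stub

/-!
PROJECT LT: final assembly.
-/

namespace Pool.Agent.Helper34.LT

open Finset

/-- the theorem for `g > 5 r + 4`, i.e. for `q = 41, 53, 61, 71, 73` and all `q ≥ 83` -/
theorem main_gen (q : ℕ) (hq : q.Prime) (h41 : 41 ≤ q) (hg : 5 * (q / 3 - q / 4) + 4 < (q - 1) / 2) :
    ∃ a b c : ℕ, 1 ≤ a ∧ a < q ∧ 1 ≤ b ∧ b < q ∧ 1 ≤ c ∧ c < q ∧
      AlgebraicIndependent ℚ
        ![Real.Gamma ((a : ℝ) / q), Real.Gamma ((b : ℝ) / q), Real.Gamma ((c : ℝ) / q)] := by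
  by_contra hcon
  have hno : ∀ a b c : ℕ, 1 ≤ a → a < q → 1 ≤ b → b < q → 1 ≤ c → c < q →
      ¬ AlgebraicIndependent ℚ
        ![Real.Gamma ((a : ℝ) / q), Real.Gamma ((b : ℝ) / q), Real.Gamma ((c : ℝ) / q)] := by
    intro a b c h1 h2 h3 h4 h5 h6 h7
    exact hcon ⟨a, b, c, h1, h2, h3, h4, h5, h6, h7⟩
  have htr := transfer q hq (by omega) hno
  have n1 : ¬ q ∣ 1 := fun h => by have := Nat.le_of_dvd (by norm_num) h; omega
  have n2 : ¬ q ∣ 1 + 1 := fun h => by have := Nat.le_of_dvd (by norm_num) h; omega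
  have n3 : ¬ q ∣ 3 := fun h => by have := Nat.le_of_dvd (by norm_num) h; omega
  have n4 : ¬ q ∣ 1 + 3 := fun h => by have := Nat.le_of_dvd (by norm_num) h; omega
  obtain ⟨τ1, ht1⟩ := F_main q 1 1 hq n1 n1 n2
  obtain ⟨τ2, ht2⟩ := F_main q 1 3 hq n1 n3 n4
  obtain ⟨κ1, c1, f0, f, h1⟩ := G_main q 1 1 hq (by omega) n1 n1 n2 τ1 ht1
  obtain ⟨κ2, c2, g0, g, h2⟩ := G_main q 1 3 hq (by omega) n1 n3 n4 τ2 ht2
  obtain ⟨N, hN, hk1, hk2⟩ := exists_pow q hq (by omega) κ1 κ2 h2.kap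
  have h2' := sys_pow q 1 3 hq (by omega) κ2 c2 g0 g h2 N hN
  set g0' : (Phi q 1 3 → ℂ) → ℂ := fun z => g0 z ^ N
  set g' : Fin ((q - 1) / 2) → (Phi q 1 3 → ℂ) → ℂ := fun i z => g i z * g0 z ^ (N - 1)
  obtain ⟨CB, hCB, hB⟩ := B_main q hq (by omega) κ1 c1 f0 f h1 _ _ g0' g' h2' hk1 hk2
  obtain ⟨CZ, hCZ, hZ⟩ := Z_app q hq h41 κ1 c1 f0 f h1 _ _ g0' g' h2'
  obtain ⟨CP, hCP, hP⟩ := exists_poly q hq h41 κ1 c1 f0 f h1 _ _ g0' g' h2'
  have hodd : 2 * ((q - 1) / 2) = q - 1 := by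
    rcases hq.eq_two_or_odd with h | h
    · omega
    · omega
  have hcard : (Psi q).card = (q - 1) / 2 + (q / 3 - q / 4) := card_Psi q hq (by omega)
  obtain ⟨κ, hκ, hpar⟩ := params ((q - 1) / 2) (q / 3 - q / 4) hg
  have hrho : ∀ i : Phi q 1 1 ⊕ Phi q 1 3,
      Sum.elim (fun u : Phi q 1 1 => rho q 1 1 u) (fun v : Phi q 1 3 => rho q 1 3 v) i ≠ 0 := by
    rintro (u | v)
    · exact rho_ne q 1 1 u hq n1 n1 n2 u.2
    · exact rho_ne q 1 3 v hq n1 n3 n4 v.2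
  obtain ⟨S0, hC⟩ := C_main _ hrho htr κ hκ
  obtain ⟨L, T0, U, S, hL, hT0, hZ0, hLT, hTU, hLU, hBc, hS0, hS1, hS2, hS3, hS4⟩ :=
    hpar (max CB 1) (max CZ 1) CP S0 (le_max_right _ _) (le_max_right _ _) hCP
  rw [hodd] at hZ0 hLT hTU hBc hS1 hS2 hS3 hS4
  rw [← hcard] at hZ0 hS3
  set T := (q - 1) * T0 with hT
  have hT1 : 1 ≤ T := by
    have : 1 * 1 ≤ (q - 1) * T0 := Nat.mul_le_mul (by omega) hT0
    simpa using this
  have hTr : (1 : ℝ) ≤ (T : ℝ) := by exact_mod_cast hT1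
  have hUpos : 0 < U := by linarith
  obtain ⟨c, hc0, hcS, hcU⟩ := hB L hL (T : ℝ) U hTr hTU hLU (by
    have e1 : (Psi q).card - (q - 1) / 2 + 1 = (q / 3 - q / 4) + 1 := by rw [hcard]; omega
    rw [e1, hodd]
    refine le_trans ?_ hBc
    have : CB ≤ max CB 1 := le_max_left _ _
    gcongr)
  obtain ⟨P, hPd, hPc, hPs, hPv⟩ := hP L T hL hLT c hcS
  -- apply the criterion
  let eN := Fintype.equivFin (Psi q → Fin (T + 1))
  have hcN : (Fintype.card (Psi q → Fin (T + 1)) : ℝ) ≤ Real.exp S := by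
    have : Fintype.card (Psi q → Fin (T + 1)) = (T + 1) ^ (Psi q).card := by
      simp
    rw [this]
    exact hS3
  have hexp : ∀ z : Psi q → ℂ, ‖z‖ ≤ 1 → ‖FF q L f0 f g0' g' (fun e => (c e : ℂ))
      (fun u => rho q 1 1 u) (fun u => rho q 1 3 u) z‖ ≤ Real.exp (-U) := by
    intro z hz
    exact hcU z hz
  obtain ⟨x, hx0, hx⟩ := hC S hS0 (Fintype.card (Psi q → Fin (T + 1))) (fun i => P (eN.symm i))
    hcN (fun i => (hPd _).trans (by simpa using hS2))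
    (fun i m => (hPc _ m).trans (Real.exp_le_exp.mpr (by simpa using hS1)))
    (fun i => (hPs U hexp _).trans (Real.exp_le_exp.mpr (by simpa using hS4)))
  have hx' : ∀ m, MvPolynomial.aeval (Sum.elim (fun u => x (Sum.inl u)) (fun v => x (Sum.inr v)))
      (P m) = 0 := by
    intro m
    have := hx (eN m)
    simp only [Equiv.symm_apply_apply] at this
    rw [← this]
    congr 2
    funext i
    rcases i with i | i <;> rfl
  have hv := hPv (fun u => x (Sum.inl u)) (fun v => x (Sum.inr v)) hx'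
  have hcne : (fun e => (c e : ℂ)) ≠ 0 := by
    intro h
    apply hc0
    funext e
    have := congrFun h e
    simpa using this
  have hfin := hZ (fun u => x (Sum.inl u)) (fun v => x (Sum.inr v)) (fun u => hx0 _) (fun v => hx0 _)
    L hL _ hcne T0 (by
      intro z j hj
      exact hv z j hj)
  have hlt : (T0 : ℝ) ^ (Psi q).card < (T0 : ℝ) ^ (Psi q).card := by
    refine lt_of_le_of_lt hfin (lt_of_le_of_lt ?_ hZ0)
    gcongr
    exact le_max_left _ _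
  exact lt_irrefl _ hlt

theorem main (q : ℕ) (hq : q.Prime) (h83 : 83 ≤ q) :
    ∃ a b c : ℕ, 1 ≤ a ∧ a < q ∧ 1 ≤ b ∧ b < q ∧ 1 ≤ c ∧ c < q ∧
      AlgebraicIndependent ℚ
        ![Real.Gamma ((a : ℝ) / q), Real.Gamma ((b : ℝ) / q), Real.Gamma ((c : ℝ) / q)] :=
  main_gen q hq (by omega) (ineq_q q hq h83)

end Pool.Agent.Helper34.LT
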