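import Pool.Agent.Helper13.LT.Td
import Pool.Agent.Helper13.LT.Fac
import Pool.Agent.Helper65.LT.Pc
import Pool.Agent.Helper11.LT.F9

/-!
PROJECT LT: assembly of block F.
-/

namespace Pool.Agent.Helper34.LTF

open Finset Pool.Agent.Helper34.LT

theorem F_main (q a b : ℕ) (hq : q.Prime) (ha : ¬ q ∣ a) (hb : ¬ q ∣ b) (hab : ¬ q ∣ a + b) :
    ∃ τ : (Phi q a b → ℂ) → ℂ, IsTau q a b τ := by
  have h3 : 3 ≤ q := by
    by_contra h
    have h2 := hq.two_le
    have : q = 2 := by omega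
    subst this
    omega
  obtain ⟨U, V, K, hF⟩ := Pool.Agent.Helper13.LT.exists_fac q a b hq ha hb hab h3
  have hd := Pool.Agent.Helper13.LT.tau_diff q a b hq ha hb hab h3
  have hn := Pool.Agent.Helper13.LT.tau_ne q a b hq ha hb hab h3
  refine ⟨tauF q a b, hd, Pool.Agent.Helper13.LT.tau_zero q a b hq ha hb hab h3, hn,
    Pool.Agent.Helper13.LT.tau_rt q a b hq ha hb hab h3,
    Pool.Agent.Helper13.LT.tau_sym q a b hq ha hb hab h3, ?_⟩
  intro P
  obtain ⟨f, fp, Ph, hP⟩ := Pool.Agent.Helper65.LT.exists_per q a b hq ha hb hab h3 P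
  exact Pool.Agent.Helper11.LT.tau_per q a b hq ha hb hab h3 U V K hF hn hd _ f fp Ph hP

end Pool.Agent.Helper34.LTF
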