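import Pool.Agent.Helper34.LT.Df

/-!
PROJECT LT, block F: common definitions of the sub-blocks
F0 (matrices, captain helper11), F1-F3 (tau, captain helper13), F4-F6 (periods, captain helper34),
F7-F9 (automorphy, captain helper11).
-/

namespace Pool.Agent.Helper34.LT

open Finset Filter

noncomputable section

/-! ### infinite matrices -/

abbrev Mat := ℕ → ℕ → ℂ

/-- product -/
def mmul (A B : Mat) : Mat := fun i j => ∑' k, A i k * B k j

def mone : Mat := fun i j => if i = j then 1 else 0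

/-- all absolute row sums and column sums are at most `C` -/
def BdC (C : ℝ) (A : Mat) : Prop :=
  (∀ i, Summable (fun j => ‖A i j‖) ∧ ∑' j, ‖A i j‖ ≤ C) ∧
    ∀ j, Summable (fun i => ‖A i j‖) ∧ ∑' i, ‖A i j‖ ≤ C

def Bd (A : Mat) : Prop := ∃ C, BdC C A

/-- absolutely summable matrices -/
def Sm (K : Mat) : Prop := Summable fun p : ℕ × ℕ => ‖K p.1 p.2‖

def nm (K : Mat) : ℝ := ∑' p : ℕ × ℕ, ‖K p.1 p.2‖

/-- truncation -/
def trn (K : Mat) (N : ℕ) : Matrix (Fin N) (Fin N) ℂ := fun i j => K i j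

/-- `det (1 + K)` -/
def fd (K : Mat) : ℂ := limUnder atTop fun N => (1 + trn K N).det

/-- weights: conjugation by `diag(2^i)` -/
def wt (A : Mat) : Mat := fun i j => (2 : ℂ) ^ ((i : ℤ) - (j : ℤ)) * A i j

/-! ### the semigroup of pole orders at infinity of the affine ring -/

/-- the class `k` in `[0,q)` with `k (a+b) = n` mod `q` -/
def cls (q a b n : ℕ) : ℕ := ((n : ZMod q) * ((a + b : ℕ) : ZMod q)⁻¹).val

/-- minimal pole order in class `k` -/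
def Nk (q a b k : ℕ) : ℕ := (k * a) % q + (k * b) % q

def sg (q a b n : ℕ) : Prop := Nk q a b (cls q a b n) ≤ n

/-- `n_0 = 0 < n_1 < ...` -/
def nn (q a b j : ℕ) : ℕ := Nat.nth (sg q a b) j

/-- exponent `beta` of class of `n` -/
def bt (q a b n : ℕ) : ℝ := al q b (cls q a b n)

/-- coefficient of `y^p` in `(1-y)^β` -/
def cc (β : ℝ) (p : ℕ) : ℝ := ∏ i ∈ range p, ((i : ℝ) - β) / ((i : ℝ) + 1)

/-- `w_n(s) = s^{-n} (1 - s^q)^{bt n}` as a series, `0 < |s| < 1` -/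
def ww (q a b n : ℕ) (s : ℂ) : ℂ := ∑' p : ℕ, (cc (bt q a b n) p : ℂ) * s ^ ((q * p : ℤ) - n)

/-- pole order `k_u` (the gaps) -/
def kk (q a b u : ℕ) : ℕ := (u * a) % q + (u * b) % q - q

/-- coefficients of `exp (∑ t_u x^{k_u})` -/
def hl (q a b : ℕ) (t : Phi q a b → ℂ) (l : ℕ) : ℂ :=
  ∑ m ∈ (Fintype.piFinset fun _ : Phi q a b => range (l + 1)).filter
    (fun m : Phi q a b → ℕ => ∑ u : Phi q a b, kk q a b u * m u = l), ∏ u, t u ^ m u / ((m u).factorial : ℂ)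

/-- `exp(xi(t)(s))`, `s` near infinity in the curve -/
def ex (q a b : ℕ) (t : Phi q a b → ℂ) (s : ℂ) : ℂ :=
  Complex.exp (∑ u : Phi q a b, t u * s ^ (-(kk q a b u : ℤ)))

/-- `M(t)_{ij}` = coefficient of `s^{-(g+i)}` in `e^{xi(t)} w_{n_j}` (without weight), `g = (q-1)/2` -/
def Mt (q a b : ℕ) (t : Phi q a b → ℂ) : Mat := fun i j =>
  ∑' p : ℕ, if nn q a b j ≤ (q - 1) / 2 + i + q * p then
    (cc (bt q a b (nn q a b j)) p : ℂ) * hl q a b t ((q - 1) / 2 + i + q * p - nn q a b j) else 0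

/-- the tau function -/
def tauF (q a b : ℕ) (t : Phi q a b → ℂ) : ℂ :=
  limUnder atTop fun N => (trn (Mt q a b t) N).det

/-- weighted lower triangular Toeplitz matrix of `exp(xi(t))` -/
def Lw (q a b : ℕ) (t : Phi q a b → ℂ) : Mat :=
  wt fun i j => if j ≤ i then hl q a b t (i - j) else 0

/-- weighted upper triangular Toeplitz matrix of `∑ f_k s^k` -/
def Uw (f : ℕ → ℂ) : Mat := wt fun i j => if i ≤ j then f (j - i) else 0

/-- the structure theorem F1, interface between F1-F3 and F7-F9 -/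
structure Fac (q a b : ℕ) (U V : Mat) (K : (Phi q a b → ℂ) → Mat) : Prop where
  bU : Bd U
  bV : Bd V
  UV : mmul U V = mone
  VU : mmul V U = mone
  upp : ∀ i j, j < i → U i j = 0
  dia : ∀ i, U i i = 1
  bL : ∀ t, Bd (Lw q a b t)
  L0 : Lw q a b 0 = mone
  Ladd : ∀ s t, Lw q a b (s + t) = mmul (Lw q a b s) (Lw q a b t)
  Lhol : ∀ i j, Differentiable ℂ (fun t => Lw q a b t i j)
  Ldom : ∀ R : ℝ, ∃ B : ℕ → ℝ, Summable B ∧ ∀ t, ‖t‖ ≤ R → ∀ i j, j ≤ i → ‖Lw q a b t i j‖ ≤ B (i - j)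
  sK : ∀ t, Sm (K t)
  fac : ∀ t, wt (Mt q a b t) = mmul (mmul (Lw q a b t) (mone + K t)) U
  tau : ∀ t, tauF q a b t = fd (K t)

/-! ### interface F6 (periods) -> F7 -/

/-- data of one period -/
structure Per (q a b : ℕ) (v : Phi q a b → ℂ) (f fp : ℕ → ℂ) (Ph : Mat) : Prop where
  sf : Summable fun k => ‖f k‖ * (2 : ℝ)⁻¹ ^ k
  sfp : Summable fun k => ‖fp k‖ * (2 : ℝ)⁻¹ ^ k
  inv : ∀ s : ℂ, ‖s‖ ≤ 2⁻¹ → (∑' k, f k * s ^ k) * (∑' k, fp k * s ^ k) = 1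
  sPh : ∀ j, Summable fun i => ‖Ph i j‖ * (2 : ℝ) ^ i
  eqn : ∀ s : ℂ, ‖s‖ = 2⁻¹ → ∀ j,
    ex q a b v s * (∑' k, fp k * s ^ k) * ww q a b (nn q a b j) s =
      ∑' i, Ph i j * ww q a b (nn q a b i) s

end

end Pool.Agent.Helper34.LT
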