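import Pool.Agent.Helper34.LT.Fd

/-!
PROJECT LT, block F: targets of the sub-blocks. DO NOT IMPORT; restate word for word.
-/

namespace Pool.Agent.Helper34.LT

open Finset Filter

/-! ### F1-F3 (captain helper13) -/

theorem exists_fac (q a b : ℕ) (hq : q.Prime) (ha : ¬ q ∣ a) (hb : ¬ q ∣ b) (hab : ¬ q ∣ a + b)
    (h3 : 3 ≤ q) : ∃ U V K, Fac q a b U V K := by
  sorry

theorem tau_diff (q a b : ℕ) (hq : q.Prime) (ha : ¬ q ∣ a) (hb : ¬ q ∣ b) (hab : ¬ q ∣ a + b)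
    (h3 : 3 ≤ q) : Differentiable ℂ (tauF q a b) := by
  sorry

theorem tau_zero (q a b : ℕ) (hq : q.Prime) (ha : ¬ q ∣ a) (hb : ¬ q ∣ b) (hab : ¬ q ∣ a + b)
    (h3 : 3 ≤ q) : tauF q a b 0 = 0 := by
  sorry

theorem tau_ne (q a b : ℕ) (hq : q.Prime) (ha : ¬ q ∣ a) (hb : ¬ q ∣ b) (hab : ¬ q ∣ a + b)
    (h3 : 3 ≤ q) : ∃ t, tauF q a b t ≠ 0 := by
  sorry

theorem tau_rt (q a b : ℕ) (hq : q.Prime) (ha : ¬ q ∣ a) (hb : ¬ q ∣ b) (hab : ¬ q ∣ a + b)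
    (h3 : 3 ≤ q) : ∃ D : ℕ, 1 ≤ D ∧ RT D 1 (tauF q a b) := by
  sorry

theorem tau_sym (q a b : ℕ) (hq : q.Prime) (ha : ¬ q ∣ a) (hb : ¬ q ∣ b) (hab : ¬ q ∣ a + b)
    (h3 : 3 ≤ q) : ∃ w : ℕ, ∀ z : Phi q a b → ℂ,
      tauF q a b (fun u => zt q ^ ((u : ℕ) * (a + b)) * z u) = zt q ^ w * tauF q a b z := by
  sorry

/-! ### F4-F6 (captain helper34) -/

theorem exists_per (q a b : ℕ) (hq : q.Prime) (ha : ¬ q ∣ a) (hb : ¬ q ∣ b) (hab : ¬ q ∣ a + b)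
    (h3 : 3 ≤ q) (P : Polynomial ℤ) : ∃ f fp Ph, Per q a b (lam q a b P) f fp Ph := by
  sorry

/-! ### F7-F9 (captain helper11) -/

theorem tau_per (q a b : ℕ) (hq : q.Prime) (ha : ¬ q ∣ a) (hb : ¬ q ∣ b) (hab : ¬ q ∣ a + b)
    (h3 : 3 ≤ q) (U V : Mat) (K : (Phi q a b → ℂ) → Mat) (h : Fac q a b U V K)
    (hne : ∃ t, tauF q a b t ≠ 0) (hdiff : Differentiable ℂ (tauF q a b))
    (v : Phi q a b → ℂ) (f fp : ℕ → ℂ) (Ph : Mat)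
    (hP : Per q a b v f fp Ph) :
    ∃ (l : (Phi q a b → ℂ) →ₗ[ℂ] ℂ) (c : ℂ), ∀ z,
      tauF q a b (z + v) = Complex.exp (l z + c) * tauF q a b z := by
  sorry

end Pool.Agent.Helper34.LT
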