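import Pool.Agent.Helper34.LT.Df

/-!
PROJECT LT: top level targets of the blocks. DO NOT IMPORT THIS FILE; restate your target word for word in your own file.
-/

namespace Pool.Agent.Helper34.LT

open Finset

/-! ### block F -/

theorem F_main (q a b : ℕ) (hq : q.Prime) (ha : ¬ q ∣ a) (hb : ¬ q ∣ b) (hab : ¬ q ∣ a + b) :
    ∃ τ : (Phi q a b → ℂ) → ℂ, IsTau q a b τ := by
  sorry

/-! ### block G -/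

theorem G_main (q a b : ℕ) (hq : q.Prime) (hq5 : 5 ≤ q) (ha : ¬ q ∣ a) (hb : ¬ q ∣ b)
    (hab : ¬ q ∣ a + b) (τ : (Phi q a b → ℂ) → ℂ) (h : IsTau q a b τ) :
    ∃ (κ : Phi q a b → ℂ) (c : Polynomial ℤ → ℂ) (f0 : (Phi q a b → ℂ) → ℂ)
      (f : Fin ((q - 1) / 2) → (Phi q a b → ℂ) → ℂ), IsSys q a b κ c f0 f := by
  sorry

/-! ### block Z -/

theorem Z_main {ι A : Type} [Fintype ι] [AddCommGroup A] (γ : A →+ (ι → ℂ))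
    (l : A →+ ((ι → ℂ) →ₗ[ℂ] ℂ)) (c : A → ℂ)
    (hd : ∃ ε : ℝ, 0 < ε ∧ ∀ a, ‖γ a‖ < ε → γ a = 0)
    (hc : ∃ R : ℝ, ∀ z, ∃ a, ‖z - γ a‖ ≤ R)
    (hb : ∀ p, ∃ F, Theta γ l c 1 F ∧ F p ≠ 0) :
    ∃ C : ℝ, 0 < C ∧ ∀ V : Submodule ℂ (ι → ℂ),
      (∀ H : Submodule ℂ (ι → ℂ), H ≠ ⊥ →
        (∀ x ∈ H, x ∈ Submodule.span ℝ {y : ι → ℂ | y ∈ H ∧ ∃ a, y = γ a}) → V ⊔ H = ⊤) →
      ∀ L : ℕ, 1 ≤ L → ∀ F, Theta γ l c L F → (∃ z, F z ≠ 0) → ∀ T : ℕ,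
        (∀ v ∈ V, ∀ j ≤ Fintype.card ι * T, iteratedDeriv j (fun s : ℂ => F (s • v)) 0 = 0) →
        (T : ℝ) ^ (Module.finrank ℂ V) ≤ C * (L : ℝ) ^ (Fintype.card ι) := by
  sorry

/-! ### block N -/

theorem mem_Phi_sub (q a b : ℕ) (hq : q.Prime) (ha : ¬ q ∣ a) (hb : ¬ q ∣ b) (hab : ¬ q ∣ a + b)
    (u : ℕ) (h1 : 1 ≤ u) (h2 : u < q) : u ∈ Phi q a b ↔ q - u ∉ Phi q a b := by
  sorry

theorem card_Phi (q a b : ℕ) (hq : q.Prime) (hq3 : 3 ≤ q) (ha : ¬ q ∣ a) (hb : ¬ q ∣ b)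
    (hab : ¬ q ∣ a + b) : (Phi q a b).card = (q - 1) / 2 := by
  sorry

theorem card_Psi (q : ℕ) (hq : q.Prime) (h : 17 ≤ q) :
    (Psi q).card = (q - 1) / 2 + (q / 3 - q / 4) := by
  sorry

theorem ineq_q (q : ℕ) (hq : q.Prime) (h : 83 ≤ q) : 5 * (q / 3 - q / 4) + 4 < (q - 1) / 2 := by
  sorry

theorem subtori (q : ℕ) (hq : q.Prime) (h : 41 ≤ q) (ρ1 : Phi q 1 1 → ℂ) (ρ2 : Phi q 1 3 → ℂ)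
    (h1 : ∀ u, ρ1 u ≠ 0) (h2 : ∀ u, ρ2 u ≠ 0)
    (H : Submodule ℂ (Phi q 1 1 ⊕ Phi q 1 3 → ℂ)) (hH : H ≠ ⊥)
    (hr : ∀ x ∈ H, x ∈ Submodule.span ℝ {y : Phi q 1 1 ⊕ Phi q 1 3 → ℂ | y ∈ H ∧
      ∃ P Q : Polynomial ℤ, y = Sum.elim (fun u => ρ1 u * pt q _ P u) (fun u => ρ2 u * pt q _ Q u)}) :
    (∀ x : Phi q 1 1 ⊕ Phi q 1 3 → ℂ, (∀ v, x (Sum.inr v) = 0) → x ∈ H) ∨
      (∀ x : Phi q 1 1 ⊕ Phi q 1 3 → ℂ, (∀ v, x (Sum.inl v) = 0) → x ∈ H) := by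
  sorry

/-! ### block B -/

theorem B_main (q : ℕ) (hq : q.Prime) (h41 : 41 ≤ q) (κ1 : Phi q 1 1 → ℂ) (c1 : Polynomial ℤ → ℂ)
    (f0 : (Phi q 1 1 → ℂ) → ℂ) (f : Fin ((q - 1) / 2) → (Phi q 1 1 → ℂ) → ℂ)
    (h1 : IsSys q 1 1 κ1 c1 f0 f)
    (κ2 : Phi q 1 3 → ℂ) (c2 : Polynomial ℤ → ℂ)
    (g0 : (Phi q 1 3 → ℂ) → ℂ) (g : Fin ((q - 1) / 2) → (Phi q 1 3 → ℂ) → ℂ)
    (h2 : IsSys q 1 3 κ2 c2 g0 g)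
    (hk1 : ∀ u (hu : u ∈ Phi q 1 1) (hv : u ∈ Phi q 1 3),
      κ1 ⟨u, hu⟩ * rho q 1 1 u + κ2 ⟨u, hv⟩ * rho q 1 3 u ≠ 0)
    (hk2 : ∀ u (hu : u ∈ Phi q 1 1) (hv : q - u ∈ Phi q 1 3),
      κ1 ⟨u, hu⟩ * rho q 1 1 u - κ2 ⟨q - u, hv⟩ * rho q 1 3 (q - u) ≠ 0) :
    ∃ C : ℝ, 0 < C ∧ ∀ L : ℕ, 1 ≤ L → ∀ S U : ℝ, 1 ≤ S → S ≤ U → (L : ℝ) ≤ U →
      C * (L : ℝ) ^ ((q - 1) / 2) * U ^ ((Psi q).card - (q - 1) / 2 + 1) ≤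
        (L : ℝ) ^ (2 * ((q - 1) / 2)) * S →
      ∃ c : (Fin ((q - 1) / 2) → Fin (L + 1)) × (Fin ((q - 1) / 2) → Fin (L + 1)) → ℤ,
        c ≠ 0 ∧ (∀ e, |(c e : ℝ)| ≤ Real.exp S) ∧
        ∀ z : Psi q → ℂ, ‖z‖ ≤ 1 →
          ‖∑ e, (c e : ℂ) *
              mon ((q - 1) / 2) L f0 f e.1
                (emb (subset_union_left (s₂ := Phi q 1 3)) (fun u => rho q 1 1 u) z) *
              mon ((q - 1) / 2) L g0 g e.2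
                (emb (subset_union_right (s₁ := Phi q 1 1)) (fun u => rho q 1 3 u) z)‖ ≤
            Real.exp (-U) := by
  sorry

/-! ### block C -/

theorem C_main {σ : Type} [Fintype σ] (ρ : σ → ℂ) (h0 : ∀ i, ρ i ≠ 0)
    (htr : ∀ i j k : σ, ¬ AlgebraicIndependent ℚ ![ρ i, ρ j, ρ k]) (κ : ℝ) (hκ : 3 < κ) :
    ∃ S0 : ℝ, ∀ S : ℝ, S0 ≤ S → ∀ (N : ℕ) (P : Fin N → MvPolynomial σ ℤ),
      (N : ℝ) ≤ Real.exp S → (∀ i, ((P i).totalDegree : ℝ) ≤ S) →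
      (∀ i m, |(((P i).coeff m : ℤ) : ℝ)| ≤ Real.exp S) →
      (∀ i, ‖MvPolynomial.aeval ρ (P i)‖ ≤ Real.exp (-S ^ κ)) →
      ∃ x : σ → ℂ, (∀ i, x i ≠ 0) ∧ ∀ i, MvPolynomial.aeval x (P i) = 0 := by
  sorry

/-! ### algebraicity of the scales -/

theorem rho_ne (q a b u : ℕ) (hq : q.Prime) (ha : ¬ q ∣ a) (hb : ¬ q ∣ b) (hab : ¬ q ∣ a + b)
    (hu : u ∈ Phi q a b) : rho q a b u ≠ 0 := by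
  sorry

theorem rho_alg (q a b u : ℕ) (hq : q.Prime) (ha : ¬ q ∣ a) (hb : ¬ q ∣ b) (hab : ¬ q ∣ a + b)
    (hu : u ∈ Phi q a b) :
    IsAlgebraic (IntermediateField.adjoin ℚ
      {x : ℂ | ∃ a : ℕ, 1 ≤ a ∧ a < q ∧ x = Complex.Gamma ((a : ℂ) / q)}) (rho q a b u) := by
  sorry

/-! ### the theorem -/

theorem main (q : ℕ) (hq : q.Prime) (h83 : 83 ≤ q) :
    ∃ a b c : ℕ, 1 ≤ a ∧ a < q ∧ 1 ≤ b ∧ b < q ∧ 1 ≤ c ∧ c < q ∧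
      AlgebraicIndependent ℚ
        ![Real.Gamma ((a : ℝ) / q), Real.Gamma ((b : ℝ) / q), Real.Gamma ((c : ℝ) / q)] := by
  sorry

end Pool.Agent.Helper34.LT
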